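import Mathlib
import Pool.Agent.Q79.HB

open Set

namespace Pool.Agent.Results.MP_8c4df5_an.PatternFails

/-- The class `𝓕_{μ,L}` of differentiable functions on the line that are `μ`-strongly convex
and `L`-smooth (the derivative is `L`-Lipschitz). -/
def FClass (μ L : ℝ) : Set (ℝ → ℝ) :=
  {f | Differentiable ℝ f ∧ StrongConvexOn univ μ f ∧ LipschitzWith L.toNNReal (deriv f)}

/-- `x` is a `K`-cycle of the heavy-ball method with step size `γ` and momentum `β` on `f`: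
the entries are not all equal and, with indices modulo `K`,
`x (i+1) = x i - γ f'(x i) + β (x i - x (i-1))`. -/
def IsCycle (γ β : ℝ) (f : ℝ → ℝ) (K : ℕ) (x : ZMod K → ℝ) : Prop :=
  (∃ i j, x i ≠ x j) ∧
    ∀ i : ZMod K, x (i + 1) = x i - γ * deriv f (x i) + β * (x i - x (i - 1))

/-- The permutation `ρ` of `{0, …, K-1}`. -/
def rho (K j : ℕ) : ℕ := if j = 0 then 0 else if j ≤ K / 2 then 2 * j - 1 else 2 * (K - j)

/-- The tuple `x` has pattern `ρ`: `x i ≤ x j` whenever `ρ i < ρ j`. -/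
def HasPattern (K : ℕ) (x : ZMod K → ℝ) : Prop :=
  ∀ i j : ℕ, i < K → j < K → rho K i < rho K j → x (i : ZMod K) ≤ x (j : ZMod K)

/-- At the tuning `γ = 19/6`, `β = 3/5` the heavy-ball method has a `5`-cycle, with five distinct
points, on a function of `𝓕_{1/10, 1}`. -/
theorem cycle_exists : ∃ f ∈ FClass (1 / 10) 1, ∃ x : ZMod 5 → ℝ,
    IsCycle (19 / 6) (3 / 5) f 5 x ∧ Function.Injective x := by
  set X : Fin 5 → ℝ := ![0, 6, 16, 25, 5] with hX
  set G : Fin 5 → ℝ := ![-54 / 19, -192 / 95, -18 / 19, 762 / 95, -42 / 19] with hG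
  obtain ⟨f, hd, hs, hl, hf⟩ := Q79.HB.exists_interpolant (ι := Fin 5) (μ := 1 / 10) (L := 1)
    (by norm_num) (by norm_num) X G (by
      intro s t
      fin_cases s <;> fin_cases t <;> norm_num [hX, hG])
  refine ⟨f, ⟨hd, hs, hl⟩, (X : ZMod 5 → ℝ), ⟨⟨0, 1, ?_⟩, ?_⟩, ?_⟩
  · show X 0 ≠ X 1
    simp [hX]
  · intro i
    have key : ∀ j : Fin 5, X (j + 1) = X j - 19 / 6 * G j + 3 / 5 * (X j - X (j - 1)) := by
      intro j
      fin_cases j
      · show (6 : ℝ) = 0 - 19 / 6 * (-54 / 19) + 3 / 5 * (0 - 5); norm_num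
      · show (16 : ℝ) = 6 - 19 / 6 * (-192 / 95) + 3 / 5 * (6 - 0); norm_num
      · show (25 : ℝ) = 16 - 19 / 6 * (-18 / 19) + 3 / 5 * (16 - 6); norm_num
      · show (5 : ℝ) = 25 - 19 / 6 * (762 / 95) + 3 / 5 * (25 - 16); norm_num
      · show (0 : ℝ) = 5 - 19 / 6 * (-42 / 19) + 3 / 5 * (5 - 25); norm_num
    have h1 := key i
    rw [← hf i] at h1
    exact h1
  · have key : ∀ a b : Fin 5, X a = X b → a = b := by
      intro a b hab
      fin_cases a <;> fin_cases b <;> simp [hX] at hab ⊢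
    exact fun a b hab => key a b hab

/-- At the same tuning no `5`-cycle on a function of `𝓕_{1/10, 1}` has pattern `ρ`. -/
theorem no_pattern : ¬ ∃ f ∈ FClass (1 / 10) 1, ∃ x : ZMod 5 → ℝ,
    IsCycle (19 / 6) (3 / 5) f 5 x ∧ HasPattern 5 x := by
  rintro ⟨f, ⟨hd, hs, hl⟩, x, ⟨⟨i, j, hij⟩, hc⟩, hp⟩
  have e0 := hc 0
  have e1 := hc 1
  have e2 := hc 2
  have e3 := hc 3
  have e4 := hc 4
  rw [show (0 : ZMod 5) + 1 = 1 from rfl, show (0 : ZMod 5) - 1 = 4 from rfl] at e0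
  rw [show (1 : ZMod 5) + 1 = 2 from rfl, show (1 : ZMod 5) - 1 = 0 from rfl] at e1
  rw [show (2 : ZMod 5) + 1 = 3 from rfl, show (2 : ZMod 5) - 1 = 1 from rfl] at e2
  rw [show (3 : ZMod 5) + 1 = 4 from rfl, show (3 : ZMod 5) - 1 = 2 from rfl] at e3
  rw [show (4 : ZMod 5) + 1 = 0 from rfl, show (4 : ZMod 5) - 1 = 3 from rfl] at e4
  have o1 : x 0 ≤ x 1 := by
    have := hp 0 1 (by norm_num) (by norm_num) (by decide)
    simpa using this
  have o2 : x 1 ≤ x 4 := by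
    have := hp 1 4 (by norm_num) (by norm_num) (by decide)
    simpa using this
  have o3 : x 4 ≤ x 2 := by
    have := hp 4 2 (by norm_num) (by norm_num) (by decide)
    simpa using this
  have o4 : x 2 ≤ x 3 := by
    have := hp 2 3 (by norm_num) (by norm_num) (by decide)
    simpa using this
  obtain ⟨s1, t1⟩ := Q79.HB.slope_bounds (by norm_num) hd hs hl o1
  obtain ⟨s2, t2⟩ := Q79.HB.slope_bounds (by norm_num) hd hs hl o2
  obtain ⟨s3, t3⟩ := Q79.HB.slope_bounds (by norm_num) hd hs hl o3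
  obtain ⟨s4, t4⟩ := Q79.HB.slope_bounds (by norm_num) hd hs hl o4
  have hle : x 3 ≤ x 0 := by linarith
  have hall : ∀ k : ZMod 5, x k = x 0 := by
    intro k
    have hk : k = 0 ∨ k = 1 ∨ k = 2 ∨ k = 3 ∨ k = 4 := by
      revert k; decide
    rcases hk with rfl | rfl | rfl | rfl | rfl <;> linarith
  exact hij ((hall i).trans (hall j).symm)

/-- **Q1 is false.** It fails already for `K = 5`, `μ = 1/10`, `L = 1`, `γ = 19/6`, `β = 3/5`,
a tuning with positive momentum `β < 1` and `γ L < 2 (1 + β)` (so that the heavy-ball method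
converges on every quadratic function of the class): there is a `5`-cycle with five distinct
points, but no `5`-cycle with pattern `ρ`. -/
theorem result :
    (¬ ∀ K : ℕ, 3 ≤ K → ∀ μ L γ β : ℝ, 0 < μ → μ ≤ L → 0 < γ →
      (∃ f ∈ FClass μ L, ∃ x : ZMod K → ℝ, IsCycle γ β f K x) →
      ∃ f ∈ FClass μ L, ∃ x : ZMod K → ℝ, IsCycle γ β f K x ∧ HasPattern K x) ∧
    (∃ μ L γ β : ℝ, 0 < μ ∧ μ < L ∧ 0 < γ ∧ 0 < β ∧ β < 1 ∧ γ * L < 2 * (1 + β) ∧
      (∃ f ∈ FClass μ L, ∃ x : ZMod 5 → ℝ, IsCycle γ β f 5 x ∧ Function.Injective x) ∧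
      ¬ ∃ f ∈ FClass μ L, ∃ x : ZMod 5 → ℝ, IsCycle γ β f 5 x ∧ HasPattern 5 x) := by
  constructor
  · intro h
    obtain ⟨f, hf, x, hx, _⟩ := cycle_exists
    exact no_pattern (h 5 (by norm_num) (1 / 10) 1 (19 / 6) (3 / 5) (by norm_num) (by norm_num)
      (by norm_num) ⟨f, hf, x, hx⟩)
  · exact ⟨1 / 10, 1, 19 / 6, 3 / 5, by norm_num, by norm_num, by norm_num, by norm_num,
      by norm_num, by norm_num, cycle_exists, no_pattern⟩

end Pool.Agent.Results.MP_8c4df5_an.PatternFails
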